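import Mathlib
import Pool.Agent.U307.RAD.Stm
import Pool.Agent.N892.BW.RTT_A

/-!
# Project RAD, package FRM: the formula for `AA`
-/

set_option autoImplicit false

open MeasureTheory Filter Topology Set
open scoped ENNReal SchwartzMap ComplexConjugate FourierTransform

namespace Pool.Agent.U338.RAD.FRM

open Pool.Agent.U307.RAD
open Pool.Agent.N892.BW.RTT (EE norm_EE EE_cont Ft_eq sym_norm sym_meas)

lemma TS_eq' (n : ℕ) (f : 𝓢(ℂ, ℂ)) (z : ℂ) :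
    TS n f z = ∫ ξ : ℂ, EE z ξ * ((starRingEnd ℂ ξ / ξ) ^ n * (𝓕 f : 𝓢(ℂ, ℂ)) ξ) :=
  Pool.Agent.N892.BW.RTT.TS_eq n f z

lemma ee_cont : Continuous ee := by unfold ee; fun_prop

lemma norm_ee (t : ℝ) : ‖ee t‖ = 1 := by
  unfold ee
  rw [show 2 * (Real.pi : ℂ) * Complex.I * (t : ℂ) = ((2 * Real.pi * t : ℝ) : ℂ) * Complex.I by
    push_cast; ring]
  exact Complex.norm_exp_ofReal_mul_I _

lemma ee_add (s t : ℝ) : ee (s + t) = ee s * ee t := by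
  unfold ee
  rw [← Complex.exp_add]
  congr 1
  push_cast
  ring

lemma ee_one : ee 1 = 1 := by
  unfold ee
  rw [Complex.ofReal_one, mul_one, Complex.exp_two_pi_mul_I]

lemma ee_ne (t : ℝ) : ee t ≠ 0 := by
  intro h
  have := norm_ee t
  rw [h, norm_zero] at this
  norm_num at this

lemma exists_ee (w : ℂ) (hw : ‖w‖ = 1) : ∃ s : ℝ, ee s = w := by
  refine ⟨Complex.arg w / (2 * Real.pi), ?_⟩
  have h := Complex.norm_mul_exp_arg_mul_I w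
  rw [hw, Complex.ofReal_one, one_mul] at h
  rw [← h]
  unfold ee
  congr 1
  have hp : (Real.pi : ℂ) ≠ 0 := by exact_mod_cast Real.pi_ne_zero
  rw [h]
  push_cast
  field_simp

lemma ee_mul_conj (t : ℝ) : ee t * (starRingEnd ℂ) (ee t) = 1 := by
  rw [Complex.mul_conj, Complex.normSq_eq_norm_sq, norm_ee]
  norm_num

/-- the integrand of `BB` -/
noncomputable def gg (m : ℕ) (x : ℝ) (t : ℝ) : ℂ :=
  ee t ^ m * Complex.exp (Complex.I * ((x * (ee t).re : ℝ) : ℂ))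

lemma gg_per (m : ℕ) (x : ℝ) : Function.Periodic (gg m x) 1 := by
  intro t
  unfold gg
  rw [ee_add, ee_one, mul_one]

lemma shift (m : ℕ) (x s : ℝ) : ∫ t in (0 : ℝ)..1, gg m x (t + s) = BB m x := by
  rw [intervalIntegral.integral_comp_add_right (fun t => gg m x t)]
  have h := (gg_per m x).intervalIntegral_add_eq s 0
  rw [zero_add, add_comm 1 s, h, zero_add]
  rfl

lemma EE_rot (t s : ℝ) (z ξ : ℂ) (A : ℝ) (h : z * (starRingEnd ℂ) ξ = (A : ℂ) * ee s) :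
    EE (ee t * z) ξ = Complex.exp (Complex.I * ((2 * Real.pi * A * (ee (t + s)).re : ℝ) : ℂ)) := by
  unfold EE
  have h1 : (ee t * z).re * ξ.re + (ee t * z).im * ξ.im = A * (ee (t + s)).re := by
    have h2 : (ee t * z).re * ξ.re + (ee t * z).im * ξ.im = (ee t * (z * (starRingEnd ℂ) ξ)).re := by
      simp only [Complex.mul_re, Complex.mul_im, Complex.conj_re, Complex.conj_im]
      ring
    rw [h2, h, ee_add]
    simp only [Complex.mul_re, Complex.mul_im, Complex.ofReal_re, Complex.ofReal_im]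
    ring
  rw [h1]
  congr 1
  push_cast
  ring

/-- the angular factor -/
noncomputable def cc (m : ℕ) (z ξ : ℂ) : ℂ :=
  ((starRingEnd ℂ) z / ‖z‖) ^ m * (ξ / ‖ξ‖) ^ m

lemma lemA (m : ℕ) {z ξ : ℂ} (hz : z ≠ 0) (hξ : ξ ≠ 0) :
    ∫ t in (0 : ℝ)..1, ee t ^ m * EE (ee t * z) ξ = cc m z ξ * BB m (2 * Real.pi * (‖z‖ * ‖ξ‖)) := by
  have hz' : ‖z‖ ≠ 0 := norm_ne_zero_iff.2 hz
  have hξ' : ‖ξ‖ ≠ 0 := norm_ne_zero_iff.2 hξ
  have hzc : (‖z‖ : ℂ) ≠ 0 := by exact_mod_cast hz'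
  have hξc : (‖ξ‖ : ℂ) ≠ 0 := by exact_mod_cast hξ'
  obtain ⟨s, hs⟩ := exists_ee (z * (starRingEnd ℂ) ξ / (‖z‖ * ‖ξ‖)) (by
    rw [norm_div, norm_mul, RCLike.norm_conj, norm_mul, Complex.norm_real, Complex.norm_real,
      norm_norm, norm_norm]
    field_simp)
  have hw : z * (starRingEnd ℂ) ξ = ((‖z‖ * ‖ξ‖ : ℝ) : ℂ) * ee s := by
    rw [hs]; push_cast; field_simp
  have hcs : (starRingEnd ℂ) (ee s) ^ m = cc m z ξ := by
    rw [hs]
    unfold cc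
    rw [← mul_pow]
    congr 1
    simp only [map_div₀, map_mul, Complex.conj_conj, Complex.conj_ofReal]
    field_simp
  have h1 : ∀ t : ℝ, ee t ^ m * EE (ee t * z) ξ =
      (starRingEnd ℂ) (ee s) ^ m * gg m (2 * Real.pi * (‖z‖ * ‖ξ‖)) (t + s) := by
    intro t
    rw [EE_rot t s z ξ _ hw]
    unfold gg
    have h2 : ee (t + s) ^ m * (starRingEnd ℂ) (ee s) ^ m = ee t ^ m := by
      rw [ee_add, ← mul_pow, mul_assoc, ee_mul_conj, mul_one]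
    rw [← h2]
    ring
  simp_rw [h1]
  rw [intervalIntegral.integral_const_mul, shift, hcs]

lemma BB_cont (m : ℕ) : Continuous (BB m) := by
  unfold BB
  apply intervalIntegral.continuous_parametric_intervalIntegral_of_continuous'
  have := ee_cont
  fun_prop

lemma BB_le (m : ℕ) (x : ℝ) : ‖BB m x‖ ≤ 1 := by
  unfold BB
  have h := intervalIntegral.norm_integral_le_of_norm_le_const (a := (0 : ℝ)) (b := 1) (C := 1)
    (f := fun t => ee t ^ m * Complex.exp (Complex.I * ((x * (ee t).re : ℝ) : ℂ))) (by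
      intro t _
      rw [norm_mul, norm_pow, norm_ee, one_pow, one_mul, mul_comm Complex.I]
      rw [Complex.norm_exp_ofReal_mul_I])
  simpa using h

lemma cc_norm (m : ℕ) (z ξ : ℂ) : ‖cc m z ξ‖ ≤ 1 := by
  unfold cc
  rw [norm_mul, norm_pow, norm_pow, norm_div, norm_div, RCLike.norm_conj, Complex.norm_real,
    Complex.norm_real, norm_norm, norm_norm]
  have h1 : ‖z‖ / ‖z‖ ≤ 1 := div_self_le_one _
  have h2 : ‖ξ‖ / ‖ξ‖ ≤ 1 := div_self_le_one _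
  have h3 : 0 ≤ ‖z‖ / ‖z‖ := by positivity
  have h4 : 0 ≤ ‖ξ‖ / ‖ξ‖ := by positivity
  exact mul_le_one₀ (pow_le_one₀ h3 h1) (pow_nonneg h4 _) (pow_le_one₀ h4 h2)

lemma cc_meas (m : ℕ) (z : ℂ) : Measurable (cc m z) := by
  unfold cc
  fun_prop

lemma F_int (f : 𝓢(ℂ, ℂ)) : Integrable fun ξ : ℂ => (𝓕 f : 𝓢(ℂ, ℂ)) ξ :=
  (𝓕 f : 𝓢(ℂ, ℂ)).integrable

lemma ae_ne : ∀ᵐ ξ : ℂ, ξ ≠ 0 := by
  simp [ae_iff]

/-- Fubini -/
lemma PP_TS (m n : ℕ) (f : 𝓢(ℂ, ℂ)) {z : ℂ} (hz : z ≠ 0) :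
    PP m (TS n f) z = ∫ ξ : ℂ, cc m z ξ * BB m (2 * Real.pi * (‖z‖ * ‖ξ‖)) *
      ((starRingEnd ℂ ξ / ξ) ^ n * (𝓕 f : 𝓢(ℂ, ℂ)) ξ) := by
  unfold PP
  have h1 : ∀ t : ℝ, ee t ^ m * TS n f (ee t * z) =
      ∫ ξ : ℂ, (ee t ^ m * EE (ee t * z) ξ) * ((starRingEnd ℂ ξ / ξ) ^ n * (𝓕 f : 𝓢(ℂ, ℂ)) ξ) := by
    intro t
    rw [TS_eq', ← integral_const_mul]
    refine integral_congr_ae (Eventually.of_forall fun ξ => ?_)
    simp only
    ring
  simp_rw [h1]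
  rw [intervalIntegral.integral_of_le zero_le_one]
  rw [integral_integral_swap]
  · refine integral_congr_ae ?_
    filter_upwards [ae_ne] with ξ hξ
    rw [integral_mul_const, ← intervalIntegral.integral_of_le zero_le_one, lemA m hz hξ]
  · have hF := (F_int f).comp_snd (volume.restrict (Ioc (0 : ℝ) 1))
    refine hF.norm.mono' ?_ (Eventually.of_forall fun p => ?_)
    · have hc : Continuous fun p : ℝ × ℂ => ee p.1 ^ m * EE (ee p.1 * z) p.2 := by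
        have h2 := ee_cont
        have h3 : Continuous fun p : ℝ × ℂ => EE (ee p.1 * z) p.2 :=
          EE_cont.comp (by fun_prop : Continuous fun p : ℝ × ℂ => (ee p.1 * z, p.2))
        fun_prop
      have hm : Measurable fun p : ℝ × ℂ => (starRingEnd ℂ p.2 / p.2) ^ n :=
        (sym_meas n).comp measurable_snd
      have hF2 : Continuous fun p : ℝ × ℂ => (𝓕 f : 𝓢(ℂ, ℂ)) p.2 :=
        (𝓕 f : 𝓢(ℂ, ℂ)).continuous.comp continuous_snd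
      exact (hc.measurable.mul (hm.mul hF2.measurable)).aestronglyMeasurable
    · simp only [Function.uncurry]
      rw [norm_mul, norm_mul, norm_mul, norm_pow, norm_ee, norm_EE, one_pow, one_mul, one_mul]
      exact mul_le_of_le_one_left (norm_nonneg _) (sym_norm n _)

/-- Fourier inversion -/
lemma TS_zero (f : 𝓢(ℂ, ℂ)) (z : ℂ) : TS 0 f z = f z := by
  rw [TS_eq']
  have h : (𝓕⁻ (𝓕 f) : 𝓢(ℂ, ℂ)) = f := FourierTransform.fourierInv_fourier_eq f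
  conv_rhs => rw [← h]
  rw [SchwartzMap.fourierInv_coe, Real.fourierInv_eq']
  refine integral_congr_ae (Eventually.of_forall fun ξ => ?_)
  simp only [smul_eq_mul, pow_zero, one_mul]
  rw [Pool.Agent.N892.BW.RTT.inner_eq]
  unfold EE
  congr 2
  push_cast
  ring

lemma PP_f (m : ℕ) (f : 𝓢(ℂ, ℂ)) {z : ℂ} (hz : z ≠ 0) :
    PP m f z = ∫ ξ : ℂ, cc m z ξ * BB m (2 * Real.pi * (‖z‖ * ‖ξ‖)) * (𝓕 f : 𝓢(ℂ, ℂ)) ξ := by
  have h : (TS 0 f) = (f : ℂ → ℂ) := funext fun w => TS_zero f w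
  have h2 := PP_TS m 0 f hz
  rw [h] at h2
  rw [h2]
  simp only [pow_zero, one_mul]

lemma qq_cont (n l : ℕ) : Continuous (qq n l) := by
  unfold qq uu
  fun_prop

lemma cc_scale (m : ℕ) {r : ℝ} (hr : 0 < r) (z ξ : ℂ) : cc m ((r : ℂ) * z) ξ = cc m z ξ := by
  unfold cc
  congr 2
  rw [map_mul, Complex.conj_ofReal, norm_mul, Complex.norm_real, Real.norm_of_nonneg hr.le]
  push_cast
  rw [mul_div_mul_left]
  exact_mod_cast hr.ne'

/-- the integral over `r` -/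
lemma int_r (n l : ℕ) (f : 𝓢(ℂ, ℂ)) {z : ℂ} (hz : z ≠ 0) :
    ∫ r in (0 : ℝ)..1, (qq n l r : ℂ) * PP l f ((r : ℂ) * z) =
      ∫ ξ : ℂ, cc l z ξ * (∫ r in (0 : ℝ)..1, (qq n l r : ℂ) *
        BB l (r * (2 * Real.pi * (‖z‖ * ‖ξ‖)))) * (𝓕 f : 𝓢(ℂ, ℂ)) ξ := by
  rw [intervalIntegral.integral_of_le zero_le_one]
  have h1 : ∀ r ∈ Ioc (0 : ℝ) 1, (qq n l r : ℂ) * PP l f ((r : ℂ) * z) =
      ∫ ξ : ℂ, ((qq n l r : ℂ) * BB l (r * (2 * Real.pi * (‖z‖ * ‖ξ‖)))) *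
        (cc l z ξ * (𝓕 f : 𝓢(ℂ, ℂ)) ξ) := by
    intro r hr
    have hr0 : (r : ℂ) * z ≠ 0 := mul_ne_zero (by exact_mod_cast hr.1.ne') hz
    rw [PP_f l f hr0, ← integral_const_mul]
    refine integral_congr_ae (Eventually.of_forall fun ξ => ?_)
    simp only
    rw [cc_scale l hr.1, norm_mul, Complex.norm_real, Real.norm_of_nonneg hr.1.le]
    rw [show 2 * Real.pi * (r * ‖z‖ * ‖ξ‖) = r * (2 * Real.pi * (‖z‖ * ‖ξ‖)) by ring]
    ring
  rw [setIntegral_congr_fun measurableSet_Ioc h1]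
  rw [integral_integral_swap]
  · refine integral_congr_ae (Eventually.of_forall fun ξ => ?_)
    simp only
    rw [integral_mul_const, ← intervalIntegral.integral_of_le zero_le_one]
    ring
  · obtain ⟨C, hC⟩ : ∃ C, ∀ r ∈ Icc (0 : ℝ) 1, ‖qq n l r‖ ≤ C :=
      (isCompact_Icc.exists_bound_of_continuousOn (qq_cont n l).continuousOn)
    have hF := ((F_int f).comp_snd (volume.restrict (Ioc (0 : ℝ) 1))).norm.const_mul C
    refine hF.mono' ?_ ?_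
    · have hq := qq_cont n l
      have hB := BB_cont l
      have hc : Continuous fun p : ℝ × ℂ => (qq n l p.1 : ℂ) *
          BB l (p.1 * (2 * Real.pi * (‖z‖ * ‖p.2‖))) := by
        fun_prop
      have hm : Measurable fun p : ℝ × ℂ => cc l z p.2 := (cc_meas l z).comp measurable_snd
      have hF2 : Continuous fun p : ℝ × ℂ => (𝓕 f : 𝓢(ℂ, ℂ)) p.2 :=
        (𝓕 f : 𝓢(ℂ, ℂ)).continuous.comp continuous_snd
      exact (hc.measurable.mul (hm.mul hF2.measurable)).aestronglyMeasurable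
    · have hmem : ∀ᵐ p : ℝ × ℂ ∂((volume.restrict (Ioc (0 : ℝ) 1)).prod volume), p.1 ∈ Ioc (0:ℝ) 1 := by
        have := (ae_restrict_mem (measurableSet_Ioc : MeasurableSet (Ioc (0:ℝ) 1)) :
          ∀ᵐ r ∂(volume.restrict (Ioc (0:ℝ) 1)), r ∈ Ioc (0:ℝ) 1)
        exact Measure.quasiMeasurePreserving_fst.ae this
      filter_upwards [hmem] with p hp
      simp only [Function.uncurry]
      have hC1 := hC p.1 ⟨hp.1.le, hp.2⟩
      have hC0 : 0 ≤ C := (norm_nonneg _).trans hC1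
      rw [norm_mul, norm_mul, norm_mul, Complex.norm_real]
      have e1 : ‖qq n l p.1‖ * ‖BB l (p.1 * (2 * Real.pi * (‖z‖ * ‖p.2‖)))‖ ≤ C * 1 :=
        mul_le_mul hC1 (BB_le l _) (norm_nonneg _) hC0
      have e2 : ‖cc l z p.2‖ * ‖(𝓕 f : 𝓢(ℂ, ℂ)) p.2‖ ≤ ‖(𝓕 f : 𝓢(ℂ, ℂ)) p.2‖ :=
        mul_le_of_le_one_left (norm_nonneg _) (cc_norm l z p.2)
      rw [mul_one] at e1
      exact mul_le_mul e1 e2 (by positivity) hC0

lemma conj_norm_sq (z : ℂ) (hz : z ≠ 0) :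
    ((starRingEnd ℂ) z / ‖z‖) ^ 2 = (starRingEnd ℂ) z / z := by
  have hzc : (‖z‖ : ℂ) ≠ 0 := by exact_mod_cast norm_ne_zero_iff.2 hz
  have h : z * (starRingEnd ℂ) z = (‖z‖ : ℂ) ^ 2 := by
    rw [Complex.mul_conj, Complex.normSq_eq_norm_sq]; push_cast; ring
  rw [div_pow, div_eq_div_iff (pow_ne_zero 2 hzc) hz, ← h]
  ring

lemma sq_norm (z : ℂ) (hz : z ≠ 0) :
    (z / ‖z‖) ^ 2 * ((starRingEnd ℂ) z / z) = 1 := by
  have hzc : (‖z‖ : ℂ) ≠ 0 := by exact_mod_cast norm_ne_zero_iff.2 hz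
  have h : z * (starRingEnd ℂ) z = (‖z‖ : ℂ) ^ 2 := by
    rw [Complex.mul_conj, Complex.normSq_eq_norm_sq]; push_cast; ring
  rw [div_pow, ← h]
  have hc : (starRingEnd ℂ) z ≠ 0 := by simpa using hz
  field_simp

lemma cc_sym (n l : ℕ) {z ξ : ℂ} (hz : z ≠ 0) (hξ : ξ ≠ 0) :
    cc (2 * n + l) z ξ * ((starRingEnd ℂ) ξ / ξ) ^ n =
      ((starRingEnd ℂ) z / z) ^ n * cc l z ξ := by
  unfold cc
  rw [pow_add, pow_add, pow_mul, pow_mul, conj_norm_sq z hz]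
  have h : ((ξ / ‖ξ‖) ^ 2) ^ n * ((starRingEnd ℂ) ξ / ξ) ^ n = 1 := by
    rw [← mul_pow, sq_norm ξ hξ, one_pow]
  calc ((starRingEnd ℂ) z / z) ^ n * ((starRingEnd ℂ) z / ‖z‖) ^ l *
        (((ξ / ‖ξ‖) ^ 2) ^ n * (ξ / ‖ξ‖) ^ l) * ((starRingEnd ℂ) ξ / ξ) ^ n
      = ((starRingEnd ℂ) z / z) ^ n * (((starRingEnd ℂ) z / ‖z‖) ^ l * (ξ / ‖ξ‖) ^ l) *
        (((ξ / ‖ξ‖) ^ 2) ^ n * ((starRingEnd ℂ) ξ / ξ) ^ n) := by ring
    _ = _ := by rw [h, mul_one]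

lemma int_BB (l : ℕ) (f : 𝓢(ℂ, ℂ)) (z : ℂ) :
    Integrable fun ξ : ℂ => cc l z ξ * BB l (2 * Real.pi * (‖z‖ * ‖ξ‖)) * (𝓕 f : 𝓢(ℂ, ℂ)) ξ := by
  refine (F_int f).norm.mono' ?_ (Eventually.of_forall fun ξ => ?_)
  · have hB := BB_cont l
    have hc : Continuous fun ξ : ℂ => BB l (2 * Real.pi * (‖z‖ * ‖ξ‖)) := by fun_prop
    exact (((cc_meas l z).mul hc.measurable).mul
      (𝓕 f : 𝓢(ℂ, ℂ)).continuous.measurable).aestronglyMeasurable
  · rw [norm_mul, norm_mul]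
    have e1 : ‖cc l z ξ‖ * ‖BB l (2 * Real.pi * (‖z‖ * ‖ξ‖))‖ ≤ 1 :=
      mul_le_one₀ (cc_norm l z ξ) (norm_nonneg _) (BB_le l _)
    exact mul_le_of_le_one_left (norm_nonneg _) e1

/-- the function of `r` integrated -/
noncomputable def QB (n l : ℕ) (x : ℝ) : ℂ := ∫ r in (0 : ℝ)..1, (qq n l r : ℂ) * BB l (r * x)

lemma QB_cont (n l : ℕ) : Continuous (QB n l) := by
  unfold QB
  apply intervalIntegral.continuous_parametric_intervalIntegral_of_continuous'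
  have hq := qq_cont n l
  have hB := BB_cont l
  fun_prop

lemma QB_le (n l : ℕ) : ∃ C : ℝ, ∀ x, ‖QB n l x‖ ≤ C := by
  obtain ⟨C, hC⟩ : ∃ C, ∀ r ∈ Icc (0 : ℝ) 1, ‖qq n l r‖ ≤ C :=
    (isCompact_Icc.exists_bound_of_continuousOn (qq_cont n l).continuousOn)
  refine ⟨C, fun x => ?_⟩
  have hC0 : 0 ≤ C := (norm_nonneg _).trans (hC 0 ⟨le_rfl, zero_le_one⟩)
  unfold QB
  have h := intervalIntegral.norm_integral_le_of_norm_le_const (a := (0 : ℝ)) (b := 1) (C := C)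
    (f := fun r => (qq n l r : ℂ) * BB l (r * x)) (by
      intro t ht
      rw [Set.uIoc_of_le zero_le_one] at ht
      rw [norm_mul, Complex.norm_real]
      calc ‖qq n l t‖ * ‖BB l (t * x)‖ ≤ C * 1 :=
            mul_le_mul (hC t ⟨ht.1.le, ht.2⟩) (BB_le l _) (norm_nonneg _) hC0
        _ = C := mul_one C)
  simpa using h

lemma int_QB (n l : ℕ) (f : 𝓢(ℂ, ℂ)) (z : ℂ) :
    Integrable fun ξ : ℂ => cc l z ξ * QB n l (2 * Real.pi * (‖z‖ * ‖ξ‖)) * (𝓕 f : 𝓢(ℂ, ℂ)) ξ := by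
  obtain ⟨C, hC⟩ := QB_le n l
  have hC0 : 0 ≤ C := (norm_nonneg _).trans (hC 0)
  refine ((F_int f).norm.const_mul C).mono' ?_ (Eventually.of_forall fun ξ => ?_)
  · have hB := QB_cont n l
    have hc : Continuous fun ξ : ℂ => QB n l (2 * Real.pi * (‖z‖ * ‖ξ‖)) := by fun_prop
    exact (((cc_meas l z).mul hc.measurable).mul
      (𝓕 f : 𝓢(ℂ, ℂ)).continuous.measurable).aestronglyMeasurable
  · rw [norm_mul, norm_mul]
    have e1 : ‖cc l z ξ‖ * ‖QB n l (2 * Real.pi * (‖z‖ * ‖ξ‖))‖ ≤ 1 * C :=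
      mul_le_mul (cc_norm l z ξ) (hC _) (norm_nonneg _) zero_le_one
    rw [one_mul] at e1
    exact mul_le_mul_of_nonneg_right e1 (norm_nonneg _)

/-- **package FRM** -/
theorem t_FRM (hBES : S_BES) : S_FRM := by
  intro n l hn f z hz
  have hA : AA n l f z = ∫ ξ : ℂ, ((starRingEnd ℂ) z / z) ^ n *
      (cc l z ξ * BB l (2 * Real.pi * (‖z‖ * ‖ξ‖)) * (𝓕 f : 𝓢(ℂ, ℂ)) ξ -
        cc l z ξ * QB n l (2 * Real.pi * (‖z‖ * ‖ξ‖)) * (𝓕 f : 𝓢(ℂ, ℂ)) ξ) := by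
    unfold AA
    rw [PP_TS (2 * n + l) n f hz]
    refine integral_congr_ae ?_
    filter_upwards [ae_ne] with ξ hξ
    rw [hBES n l hn]
    have h1 := cc_sym n l hz hξ
    change cc (2 * n + l) z ξ * (BB l (2 * Real.pi * (‖z‖ * ‖ξ‖)) -
      QB n l (2 * Real.pi * (‖z‖ * ‖ξ‖))) * (((starRingEnd ℂ) ξ / ξ) ^ n *
        (𝓕 f : 𝓢(ℂ, ℂ)) ξ) = _
    calc cc (2 * n + l) z ξ * (BB l (2 * Real.pi * (‖z‖ * ‖ξ‖)) -
          QB n l (2 * Real.pi * (‖z‖ * ‖ξ‖))) * (((starRingEnd ℂ) ξ / ξ) ^ n *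
            (𝓕 f : 𝓢(ℂ, ℂ)) ξ)
        = (cc (2 * n + l) z ξ * ((starRingEnd ℂ) ξ / ξ) ^ n) *
          ((BB l (2 * Real.pi * (‖z‖ * ‖ξ‖)) - QB n l (2 * Real.pi * (‖z‖ * ‖ξ‖))) *
            (𝓕 f : 𝓢(ℂ, ℂ)) ξ) := by ring
      _ = _ := by rw [h1]; ring
  rw [hA, integral_const_mul, integral_sub (int_BB l f z) (int_QB n l f z), PP_f l f hz,
    int_r n l f hz]
  rfl

end Pool.Agent.U338.RAD.FRM
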